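import Pool.Agent.PQP.StmtsX

/-!
# Squad PQP, row DIL
-/

set_option autoImplicit false

open scoped InnerProductSpace Topology ContDiff Manifold
open MeasureTheory Filter Set

noncomputable section

namespace Pool.Agent.PQP.H23

open Pool.Agent.PQP Pool.Agent.Helper42_Paneitz Pool.Agent.Helper82_Vir Pool.Agent.FLX

theorem fderiv_radialExt_self {f : S4 → ℝ} (hf : Sm f) {y : E5} (hy : y ≠ 0) :
    fderiv ℝ (radialExt f) y y = 0 := by
  have hn := norm_pos_of_ne hy
  set x : S4 := ⟨‖y‖⁻¹ • y, normalize_mem hy⟩ with hx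
  have hyx : y = ‖y‖ • (x : E5) := by
    rw [hx]
    show y = ‖y‖ • ‖y‖⁻¹ • y
    rw [smul_smul, mul_inv_cancel₀ hn.ne', one_smul]
  have h1 := fderiv_radialExt_smul hf hn (S4_ne_zero x) (‖y‖ • (x : E5))
  rw [← hyx] at h1
  rw [h1]
  have h2 : fderiv ℝ (radialExt f) (x : E5) y = ‖y‖ * dd f x (x : E5) := by
    conv_lhs => rw [hyx]
    exact dd_smul f x _ _
  rw [h2, dd_self hf, mul_zero, mul_zero]

theorem key {ψ : S4 → ℝ} (hψ : Sm ψ) (w : S4) (v : E5) {t : ℝ} (ht : (w : E5) + t • v ≠ 0) :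
    radialExt (fun z => dd ψ z (w : E5)) ((w : E5) + t • v) =
      -(t * radialExt (fun z => dd ψ z v) ((w : E5) + t • v)) := by
  rw [radialExt_dd hψ _ ht, radialExt_dd hψ _ ht]
  have h := fderiv_radialExt_self hψ ht
  set L := fderiv ℝ (radialExt ψ) ((w : E5) + t • v) with hL
  have h2 : L (w : E5) + t * L v = 0 := by
    have h3 : L ((w : E5) + t • v) = L (w : E5) + t * L v := by
      rw [map_add, map_smul, smul_eq_mul]
    rw [← h3]; exact h
  have h3 : L (w : E5) = -(t * L v) := by linarith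
  rw [h3]
  ring

theorem ev_ne (w : S4) (v : E5) : ∀ᶠ t : ℝ in 𝓝 0, (w : E5) + t • v ≠ 0 :=
  (tendsto_line (w : E5) v).eventually (eventually_ne_zero (S4_ne_zero w))

theorem dil : DilStmt := by
  intro ψ w hψ
  have hw := S4_ne_zero w
  have hg : Sm (fun z => dd ψ z (w : E5)) := sm_dd hψ _
  refine ⟨dd_self hψ w, ?_, ?_⟩
  · intro v
    have hγ : Sm (fun z => dd ψ z v) := sm_dd hψ v
    have h1 : HasDerivAt (fun t : ℝ => radialExt (fun z => dd ψ z (w : E5)) ((w : E5) + t • v))
        (fderiv ℝ (radialExt (fun z => dd ψ z (w : E5))) ((w : E5) + (0 : ℝ) • v) v) 0 :=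
      hasDerivAt_comp_line (by simpa using sm_diffAt hg hw)
    have h2 : HasDerivAt (fun t : ℝ => radialExt (fun z => dd ψ z v) ((w : E5) + t • v))
        (fderiv ℝ (radialExt (fun z => dd ψ z v)) ((w : E5) + (0 : ℝ) • v) v) 0 :=
      hasDerivAt_comp_line (by simpa using sm_diffAt hγ hw)
    have h3 := ((hasDerivAt_id (0 : ℝ)).mul h2).neg
    have h4 : (fun t : ℝ => radialExt (fun z => dd ψ z (w : E5)) ((w : E5) + t • v)) =ᶠ[𝓝 0]
        fun t : ℝ => -(t * radialExt (fun z => dd ψ z v) ((w : E5) + t • v)) := by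
      filter_upwards [ev_ne w v] with t ht
      exact key hψ w v ht
    have h5 : HasDerivAt (fun t : ℝ => -(t * radialExt (fun z => dd ψ z v) ((w : E5) + t • v)))
        (-(dd ψ w v)) 0 := by
      have h6 := h3
      simp only [id] at h6
      have h7 : radialExt (fun z => dd ψ z v) (w : E5) = dd ψ w v := radialExt_coe _ w
      refine h6.congr_deriv ?_
      rw [zero_smul, add_zero, h7]
      ring
    have h6 := h1.unique (h5.congr_of_eventuallyEq h4)
    rw [zero_smul, add_zero] at h6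
    exact h6
  · rw [sphLaplacian_eq hψ w]
    unfold sphLaplacian
    rw [laplacian_eq_sum, Finset.mul_sum]
    refine Finset.sum_congr rfl fun i _ => ?_
    have hγ : Sm (fun z => dd ψ z (ee i)) := sm_dd hψ (ee i)
    have hγ2 : ContDiffAt ℝ 2 (radialExt (fun z => dd ψ z (ee i))) (w : E5) :=
      (hγ (w : E5) hw).of_le two_le_infty
    have hg2 : ContDiffAt ℝ 2 (radialExt (fun z => dd ψ z (w : E5))) (w : E5) :=
      (hg (w : E5) hw).of_le two_le_infty
    refine iteratedFDeriv_two_line hg2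
      (φ1 := fun t => -(radialExt (fun z => dd ψ z (ee i)) ((w : E5) + t • ee i) +
        t * fderiv ℝ (radialExt (fun z => dd ψ z (ee i))) ((w : E5) + t • ee i) (ee i)))
      ?_ ?_
    · have hne := ev_ne w (ee i)
      have hne2 : ∀ᶠ t : ℝ in 𝓝 0, ∀ᶠ s : ℝ in 𝓝 t, (w : E5) + s • ee i ≠ 0 :=
        eventually_eventually_nhds.2 hne
      filter_upwards [hne, hne2, eventually_hasDerivAt_line (v := ee i) hγ2] with t ht ht2 ht3
      have h1 := ((hasDerivAt_id t).mul ht3).neg
      have h2 : (fun t : ℝ => radialExt (fun z => dd ψ z (w : E5)) ((w : E5) + t • ee i))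
          =ᶠ[𝓝 t] fun t : ℝ => -(t * radialExt (fun z => dd ψ z (ee i)) ((w : E5) + t • ee i)) := by
        filter_upwards [ht2] with s hs
        exact key hψ w (ee i) hs
      refine HasDerivAt.congr_of_eventuallyEq ?_ h2
      refine h1.congr_deriv ?_
      simp only [id]
      ring
    · have h1 : HasDerivAt (fun t : ℝ => radialExt (fun z => dd ψ z (ee i)) ((w : E5) + t • ee i))
          (fderiv ℝ (radialExt (fun z => dd ψ z (ee i))) ((w : E5) + (0 : ℝ) • ee i) (ee i)) 0 :=
        hasDerivAt_comp_line (by simpa using sm_diffAt hγ hw)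
      have h2 := hasDerivAt_fderiv_line (v := ee i) hγ2
      have h3 := (h1.add ((hasDerivAt_id (0 : ℝ)).mul h2)).neg
      refine h3.congr_deriv ?_
      show _ = -2 * dd (fun z => dd ψ z (ee i)) w (ee i)
      simp only [id, zero_smul, add_zero, one_mul, zero_mul]
      unfold dd
      ring

end Pool.Agent.PQP.H23
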